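import Pool.Agent.ISB.StmtsB

/-! ISB row FAI (helper3): the operators detect the class. -/

set_option autoImplicit false

namespace Pool.Agent.ISB.H3

open Pool.Agent.ISB
open scoped Classical commutatorElement

attribute [local instance 100] LieRing.ofAssociativeRing LieAlgebra.ofAssociativeAlgebra

theorem exists_index_two {N : Type} [Group N] [Finite N] (hp : IsPGroup 2 N) (M : Subgroup N)
    [M.Normal] (hM : M ≠ ⊤) : ∃ K : Subgroup N, M ≤ K ∧ K.index = 2 := by
  have hQ : IsPGroup 2 (N ⧸ M) := hp.to_quotient M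
  have h2 : Fact (Nat.Prime 2) := ⟨Nat.prime_two⟩
  obtain ⟨n, hn⟩ := (IsPGroup.iff_card (p := 2)).1 hQ
  have hn0 : n ≠ 0 := by
    rintro rfl
    apply hM
    have h1 : Nat.card (N ⧸ M) = 1 := by simpa using hn
    exact Subgroup.index_eq_one.1 h1
  obtain ⟨k, rfl⟩ := Nat.exists_eq_succ_of_ne_zero hn0
  obtain ⟨K', hK'⟩ := Sylow.exists_subgroup_card_pow_prime (G := N ⧸ M) 2 (n := k)
    (by rw [hn]; exact pow_dvd_pow 2 (Nat.le_succ k))
  refine ⟨K'.comap (QuotientGroup.mk' M), ?_, ?_⟩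
  · intro x hx
    rw [Subgroup.mem_comap]
    have h1 : QuotientGroup.mk' M x = 1 := (QuotientGroup.eq_one_iff x).2 hx
    rw [h1]
    exact K'.one_mem
  · rw [Subgroup.index_comap_of_surjective _ (QuotientGroup.mk'_surjective M)]
    have h := K'.card_mul_index
    rw [hK', hn, pow_succ] at h
    exact Nat.eq_of_mul_eq_mul_left (pow_pos (by norm_num) k) h

theorem fai (hgmc : GmcStmt) (hdop : DopStmt) : FaiStmt := by
  intro P _ _ F _ _ hP c hT
  obtain ⟨-, hanti, hconj, -, hgm0⟩ := hgmc P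
  by_contra hne
  have h2 : Fact (Nat.Prime 2) := ⟨Nat.prime_two⟩
  have hcomm : ∀ j, gm P (j + 1) = ⁅gm P j, (⊤ : Subgroup P)⁆ := fun j => rfl
  -- the next term is smaller
  have hlt : gm P (c + 2) ≠ gm P (c + 1) := by
    intro heq
    have hall : ∀ d, gm P (c + 1 + d) = gm P (c + 1) := by
      intro d
      induction d with
      | zero => rfl
      | succ d ih =>
        have h1 : gm P (c + 1 + (d + 1)) = ⁅gm P (c + 1 + d), (⊤ : Subgroup P)⁆ := rfl
        rw [h1, ih]
        exact heq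
    have htop : Group.IsNilpotent (⊤ : Subgroup P) := (hP.to_subgroup ⊤).isNilpotent
    obtain ⟨n, hn⟩ := (Subgroup.isNilpotent_iff_lowerCentralSeries (S := (⊤ : Subgroup P))).1 htop
    have hle : gm P (c + 1 + n) ≤ gm P n := hanti n (c + 1 + n) (by omega)
    rw [hall n] at hle
    have hn' : gm P n = ⊥ := hn
    rw [hn'] at hle
    exact hne (le_bot_iff.1 hle)
  have hMN : gm P (c + 2) ≤ gm P (c + 1) := hanti (c + 1) (c + 2) (by omega)
  have hnorm : ((gm P (c + 2)).subgroupOf (gm P (c + 1))).Normal := by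
    have h0 : (gm P (c + 2)).Normal := ⟨fun x hx g => hconj (c + 2) x hx g⟩
    infer_instance
  have hneT : (gm P (c + 2)).subgroupOf (gm P (c + 1)) ≠ ⊤ := by
    intro h
    exact hlt (le_antisymm hMN (Subgroup.subgroupOf_eq_top.1 h))
  obtain ⟨K, hMK, hK2⟩ := exists_index_two (hP.to_subgroup (gm P (c + 1)))
    ((gm P (c + 2)).subgroupOf (gm P (c + 1))) hneT
  -- the functional
  let φ : P → F := fun x => if h : x ∈ gm P (c + 1) then
    (if (⟨x, h⟩ : gm P (c + 1)) ∈ K then 0 else 1) else 0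
  let f : ℕ → P → F := fun j x => if j = c + 1 then φ x else 0
  have hφ1 : ∀ x ∈ gm P (c + 1), ∀ y ∈ gm P (c + 1), φ (x * y) = φ x + φ y := by
    intro x hx y hy
    have hxy : x * y ∈ gm P (c + 1) := (gm P (c + 1)).mul_mem hx hy
    have h1 := Subgroup.mul_mem_iff_of_index_two hK2 (a := (⟨x, hx⟩ : gm P (c + 1)))
      (b := ⟨y, hy⟩)
    have h2' : (⟨x, hx⟩ : gm P (c + 1)) * ⟨y, hy⟩ = ⟨x * y, hxy⟩ := rfl
    rw [h2'] at h1
    simp only [φ, dif_pos hx, dif_pos hy, dif_pos hxy]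
    by_cases hxK : (⟨x, hx⟩ : gm P (c + 1)) ∈ K <;> by_cases hyK : (⟨y, hy⟩ : gm P (c + 1)) ∈ K
    · rw [if_pos hxK, if_pos hyK, if_pos (h1.2 (by tauto)), add_zero]
    · rw [if_pos hxK, if_neg hyK, if_neg (fun h => hyK ((h1.1 h).1 hxK)), zero_add]
    · rw [if_neg hxK, if_pos hyK, if_neg (fun h => hxK ((h1.1 h).2 hyK)), add_zero]
    · rw [if_neg hxK, if_neg hyK, if_pos (h1.2 (by tauto))]
      exact (CharTwo.add_self_eq_zero (1 : F)).symm
  have hφ2 : ∀ x ∈ gm P (c + 2), φ x = 0 := by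
    intro x hx
    have hxN := hMN hx
    simp only [φ, dif_pos hxN]
    rw [if_pos]
    exact hMK (Subgroup.mem_subgroupOf.2 hx)
  have hφ3 : ∀ x, x ∉ gm P (c + 1) → φ x = 0 := by
    intro x hx
    simp only [φ, dif_neg hx]
  have hf : f ∈ Dl P F := by
    intro j
    by_cases hj : j = c + 1
    · subst hj
      refine ⟨fun x hx y hy => ?_, fun x hx => ?_, fun x hx => ?_⟩
      · simp only [f, if_true]
        exact hφ1 x hx y hy
      · simp only [f, if_true]
        exact hφ2 x hx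
      · simp only [f, if_true]
        exact hφ3 x hx
    · refine ⟨fun x _ y _ => ?_, fun x _ => ?_, fun x _ => ?_⟩
      · simp only [f, if_neg hj, add_zero]
      · simp only [f, if_neg hj]
      · simp only [f, if_neg hj]
  -- all commutators are in `K`
  have hkey : ∀ x ∈ gm P c, ∀ g : P, ⁅x, g⁆ ∈ K.map (gm P (c + 1)).subtype := by
    intro x hx g
    obtain ⟨T, hTx⟩ := (hdop P F).1 c x hx
    have hT0 : T = 0 := hT x hx T hTx
    have h1 := hTx.2 ⟨f, hf⟩
    rw [hT0] at h1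
    have h3 := congrFun (congrFun h1 0) g
    have hgin : g ∈ gm P 0 := by rw [hgm0]; exact Subgroup.mem_top g
    have h4 : (Dop P F c x f) 0 g = f (0 + c + 1) ⁅x, g⁆ := by
      show (if g ∈ gm P 0 then f (0 + c + 1) ⁅x, g⁆ else 0) = f (0 + c + 1) ⁅x, g⁆
      rw [if_pos hgin]
    have h5 : f (0 + c + 1) ⁅x, g⁆ = 0 := by
      rw [← h4]
      exact h3.symm
    have h6 : φ ⁅x, g⁆ = 0 := by
      have : f (0 + c + 1) ⁅x, g⁆ = φ ⁅x, g⁆ := by
        simp only [f]
        rw [if_pos (by omega)]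
      rw [← this]
      exact h5
    have hin : ⁅x, g⁆ ∈ gm P (c + 1) := by
      rw [hcomm]
      exact Subgroup.commutator_mem_commutator hx (Subgroup.mem_top g)
    refine Subgroup.mem_map.2 ⟨⟨⁅x, g⁆, hin⟩, ?_, rfl⟩
    by_contra hnot
    simp only [φ, dif_pos hin, if_neg hnot] at h6
    exact one_ne_zero h6
  have hle : gm P (c + 1) ≤ K.map (gm P (c + 1)).subtype :=
    Subgroup.commutator_le.2 (fun x hx g _ => hkey x hx g)
  have hKtop : K = ⊤ := by
    rw [eq_top_iff]
    intro y _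
    obtain ⟨z, hz, hzy⟩ := Subgroup.mem_map.1 (hle y.2)
    have : z = y := Subtype.ext hzy
    rw [← this]
    exact hz
  rw [hKtop, Subgroup.index_top] at hK2
  omega

end Pool.Agent.ISB.H3
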